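import Mathlib

/-!
# Programs whose additive gates detect zeros (helper638)
-/

set_option autoImplicit false

namespace Pool.Agent.Y638.TC

/-- `h` detects zeros: at every rational zero of `h` some coordinate is zero -/
def Det {m : ℕ} (h : MvPolynomial (Fin m) ℚ) : Prop :=
  ∀ y : Fin m → ℚ, MvPolynomial.eval y h = 0 → ∃ i, y i = 0

section

open Polynomial

/-- a step of a program: `h` applied to earlier results, where `h` detects zeros -/
def Step (p : ℕ → ℚ[X]) (k : ℕ) : Prop :=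
  ∃ (m : ℕ) (h : MvPolynomial (Fin m) ℚ) (s : Fin m → ℕ), Det h ∧ (∀ i, s i < k) ∧
    p k = MvPolynomial.aeval (fun i => p (s i)) h

theorem eval_step {p : ℕ → ℚ[X]} {m : ℕ} (h : MvPolynomial (Fin m) ℚ) (s : Fin m → ℕ) (x : ℚ) :
    (MvPolynomial.aeval (fun i => p (s i)) h : ℚ[X]).eval x =
      MvPolynomial.eval (fun i => (p (s i)).eval x) h := by
  have h1 : (Polynomial.evalRingHom x).comp
      (MvPolynomial.aeval (R := ℚ) (fun i => p (s i))).toRingHom =
      MvPolynomial.eval (fun i => (p (s i)).eval x) := by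
    apply MvPolynomial.ringHom_ext
    · intro r
      simp
    · intro i
      simp
  exact RingHom.congr_fun h1 h

/-- every root of a result is a root of a basic step -/
theorem root_base (L : ℕ) (p : ℕ → ℚ[X]) (D : Finset ℕ)
    (hp : ∀ k ≤ L, k ∈ D ∨ Step p k) (x : ℚ) : ∀ k ≤ L, (p k).eval x = 0 →
      ∃ j ∈ D, j ≤ L ∧ (p j).eval x = 0 := by
  intro k
  induction k using Nat.strong_induction_on with
  | _ k ih =>
    intro hk h0
    rcases hp k hk with hD | ⟨m, h, s, hdet, hs, hpk⟩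
    · exact ⟨k, hD, hk, h0⟩
    · rw [hpk, eval_step] at h0
      obtain ⟨i, hi⟩ := hdet _ h0
      exact ih (s i) (hs i) ((hs i).le.trans hk) hi

/-- the number of the rational roots of all results -/
theorem card_le (L : ℕ) (p : ℕ → ℚ[X]) (D : Finset ℕ) (hne : ∀ k ≤ L, p k ≠ 0)
    (hp : ∀ k ≤ L, k ∈ D ∨ Step p k) (S : Finset ℚ)
    (hS : ∀ x ∈ S, ∃ k ≤ L, (p k).eval x = 0) : S.card ≤ ∑ j ∈ D, (p j).natDegree := by
  classical
  have h1 : S ⊆ (D.filter fun j => j ≤ L).biUnion fun j => (p j).roots.toFinset := by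
    intro x hx
    obtain ⟨k, hk, h0⟩ := hS x hx
    obtain ⟨j, hj, hjL, hj0⟩ := root_base L p D hp x k hk h0
    rw [Finset.mem_biUnion]
    refine ⟨j, Finset.mem_filter.2 ⟨hj, hjL⟩, ?_⟩
    rw [Multiset.mem_toFinset, mem_roots (hne j hjL)]
    exact hj0
  refine (Finset.card_le_card h1).trans (Finset.card_biUnion_le.trans ?_)
  refine (Finset.sum_le_sum fun j _ => (Multiset.toFinset_card_le _).trans (card_roots' _)).trans ?_
  exact Finset.sum_le_sum_of_subset (Finset.filter_subset _ _)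

end

/-! ### polynomials that detect zeros -/

section

open MvPolynomial

/-- Fermat -/
theorem det_fermat (n : ℕ) (h : 3 ∣ n ∨ 4 ∣ n) :
    Det (X 0 ^ n + X 1 ^ n - X 2 ^ n : MvPolynomial (Fin 3) ℚ) := by
  intro y hy
  have hF : FermatLastTheoremFor n := by
    rcases h with h | h
    · exact FermatLastTheoremFor.mono h fermatLastTheoremThree
    · exact FermatLastTheoremFor.mono h fermatLastTheoremFour
  have hQ := (fermatLastTheoremFor_iff_rat).1 hF
  by_contra hcon
  push Not at hcon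
  refine hQ (y 0) (y 1) (y 2) (hcon 0) (hcon 1) (hcon 2) ?_
  simp only [map_sub, map_add, map_pow, eval_X] at hy
  linarith

/-- the equation `a ^ 4 + b ^ 4 = c ^ 2` -/
theorem det_fermat42 :
    Det (X 0 ^ 4 + X 1 ^ 4 - X 2 ^ 2 : MvPolynomial (Fin 3) ℚ) := by
  intro y hy
  simp only [map_sub, map_add, map_pow, eval_X] at hy
  by_contra hcon
  push Not at hcon
  set a := y 0 with ha
  set b := y 1 with hb
  set c := y 2 with hc
  have ha0 : a.num ≠ 0 := Rat.num_ne_zero.2 (hcon 0)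
  have hb0 : b.num ≠ 0 := Rat.num_ne_zero.2 (hcon 1)
  have hda : (a.den : ℚ) ≠ 0 := by exact_mod_cast a.den_nz
  have hdb : (b.den : ℚ) ≠ 0 := by exact_mod_cast b.den_nz
  have h1 : (((a.num * b.den : ℤ) : ℚ)) ^ 4 + ((b.num * a.den : ℤ) : ℚ) ^ 4 =
      (c * (a.den * b.den) ^ 2) ^ 2 := by
    have e1 : a * a.den = a.num := Rat.mul_den_eq_num a
    have e2 : b * b.den = b.num := Rat.mul_den_eq_num b
    push_cast
    rw [← e1, ← e2]
    have e3 : a ^ 4 + b ^ 4 = c ^ 2 := by linarith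
    linear_combination (a.den * b.den : ℚ) ^ 4 * e3
  -- the right-hand side is the square of an integer
  have h2 : (c * (a.den * b.den) ^ 2).den = 1 := by
    have h3 : ((c * (a.den * b.den) ^ 2) ^ 2).den = 1 := by
      rw [← h1]
      have : (((a.num * b.den : ℤ) : ℚ)) ^ 4 + ((b.num * a.den : ℤ) : ℚ) ^ 4 =
          (((a.num * b.den) ^ 4 + (b.num * a.den) ^ 4 : ℤ) : ℚ) := by push_cast; ring
      rw [this]
      exact Rat.den_intCast _
    rw [Rat.den_pow] at h3
    exact (Nat.pow_eq_one.1 h3).resolve_right (by norm_num)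
  obtain ⟨z, hz⟩ : ∃ z : ℤ, (c * (a.den * b.den) ^ 2) = z :=
    ⟨(c * (a.den * b.den) ^ 2).num, (Rat.coe_int_num_of_den_eq_one h2).symm⟩
  rw [hz] at h1
  have h4 : (a.num * b.den) ^ 4 + (b.num * a.den) ^ 4 = z ^ 2 := by exact_mod_cast h1
  refine not_fermat_42 (mul_ne_zero ha0 (by exact_mod_cast b.den_nz))
    (mul_ne_zero hb0 (by exact_mod_cast a.den_nz)) h4

/-- binary forms without rational linear factors of this kind -/
theorem det_binary (n : ℕ) (u v : ℚ) (hu : u ≠ 0) (h : ∀ r : ℚ, r ^ n ≠ v / u) :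
    Det (C u * X 0 ^ n - C v * X 1 ^ n : MvPolynomial (Fin 2) ℚ) := by
  intro y hy
  simp only [map_sub, map_mul, map_pow, eval_X, eval_C] at hy
  by_contra hcon
  push Not at hcon
  refine h (y 0 / y 1) ?_
  have h1 : y 1 ^ n ≠ 0 := pow_ne_zero _ (hcon 1)
  rw [div_pow, div_eq_div_iff h1 hu]
  linarith

/-- sums of even powers -/
theorem det_even (m : ℕ) (hm : 0 < m) (e : Fin m → ℕ) (he : ∀ i, e i ≠ 0) :
    Det (∑ i, X i ^ (2 * e i) : MvPolynomial (Fin m) ℚ) := by
  intro y hy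
  simp only [map_sum, map_pow, eval_X] at hy
  have h1 := (Finset.sum_eq_zero_iff_of_nonneg (fun i _ => by
    rw [pow_mul]
    positivity)).1 hy ⟨0, hm⟩ (Finset.mem_univ _)
  refine ⟨⟨0, hm⟩, ?_⟩
  exact pow_eq_zero_iff (by have := he ⟨0, hm⟩; omega) |>.1 h1

/-- monomials -/
theorem det_monomial (m : ℕ) (c : ℚ) (hc : c ≠ 0) (e : Fin m → ℕ) :
    Det (C c * ∏ i, X i ^ e i : MvPolynomial (Fin m) ℚ) := by
  intro y hy
  simp only [map_mul, map_prod, map_pow, eval_X, eval_C] at hy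
  rcases mul_eq_zero.1 hy with h1 | h1
  · exact (hc h1).elim
  · rw [Finset.prod_eq_zero_iff] at h1
    obtain ⟨i, _, hi⟩ := h1
    exact ⟨i, eq_zero_of_pow_eq_zero hi⟩

/-- substitutions -/
theorem det_subst {m l : ℕ} (h : MvPolynomial (Fin m) ℚ) (g : Fin m → MvPolynomial (Fin l) ℚ)
    (hh : Det h) (hg : ∀ i, Det (g i)) : Det (bind₁ g h) := by
  intro y hy
  have h1 : MvPolynomial.eval y (bind₁ g h) =
      MvPolynomial.eval (fun i => MvPolynomial.eval y (g i)) h := by
    rw [← MvPolynomial.coe_aeval_eq_eval, ← MvPolynomial.coe_aeval_eq_eval]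
    simp only [RingHom.coe_coe]
    rw [MvPolynomial.aeval_bind₁]
  rw [h1] at hy
  obtain ⟨i, hi⟩ := hh _ hy
  exact hg i y hi

/-- products -/
theorem det_mul {m : ℕ} (g h : MvPolynomial (Fin m) ℚ) (hg : Det g) (hh : Det h) :
    Det (g * h) := by
  intro y hy
  rw [map_mul] at hy
  rcases mul_eq_zero.1 hy with h1 | h1
  · exact hg y h1
  · exact hh y h1

end

end Pool.Agent.Y638.TC
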